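import Pool.Agent.Lib.MP_af4e44_co.GR.Quot

/-! The graph on 288 vertices: automorphisms, arc transitivity, common neighbours. -/

set_option autoImplicit false

namespace Pool.Agent.Lib.MP_af4e44_co.GR

open Finset Equiv

abbrev V := Fin 288

def Ad (a b : V) : Prop := bit (row a.val) b.val = 1

instance (a b : V) : Decidable (Ad a b) := inferInstanceAs (Decidable (_ = _))

def Aut (φ : Perm V) : Prop := ∀ a b, Ad (φ a) (φ b) ↔ Ad a b

lemma autChk_true {T I : ℕ} (h : autChk T I = true) (a : ℕ) (ha : a < 288) :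
    pm T a < 288 ∧ pm I a < 288 ∧ pm I (pm T a) = a ∧ pm T (pm I a) = a ∧
      ∀ b < 288, bit (row (pm T a)) (pm T b) = bit (row a) b := by
  rw [autChk] at h
  have h1 := allN_true h a ha
  rw [frc_eq, frc_eq] at h1
  simp only [Bool.and_eq_true, Nat.blt_eq, Nat.beq_eq] at h1
  exact ⟨h1.1.1.1.1, h1.1.1.1.2, h1.1.1.2, h1.1.2, fun b hb => by
    simpa only [Nat.beq_eq] using allN_true h1.2 b hb⟩

def mkP {T I : ℕ} (h : autChk T I = true) : Perm V where
  toFun a := ⟨pm T a.val, (autChk_true h a.val a.2).1⟩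
  invFun a := ⟨pm I a.val, (autChk_true h a.val a.2).2.1⟩
  left_inv a := Fin.ext (autChk_true h a.val a.2).2.2.1
  right_inv a := Fin.ext (autChk_true h a.val a.2).2.2.2.1

lemma mkP_val {T I : ℕ} (h : autChk T I = true) (a : V) : (mkP h a).val = pm T a.val := rfl

lemma mkP_symm {T I : ℕ} (h : autChk T I = true) (a : V) :
    ((mkP h).symm a).val = pm I a.val := rfl

lemma mkP_aut {T I : ℕ} (h : autChk T I = true) : Aut (mkP h) := by
  intro a b
  unfold Ad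
  rw [mkP_val, mkP_val, (autChk_true h a.val a.2).2.2.2.2 b.val b.2]

lemma fix_vals : pm Te 0 = 0 ∧ pm Tt 0 = 0 ∧ pm Tt 1 = 1 ∧ pm Tf 0 = 0 ∧ pm Tf 1 = 1 ∧
    pm Tm 0 = 0 ∧ pm Tm 1 = 1 ∧ pm Tw 0 = 1 ∧ pm Tw 1 = 0 ∧ pm TA 0 = 0 ∧ pm TB 0 = 1 := by
  decide +kernel

lemma reach (P : V → V → Prop) (h0 : P 0 1)
    (hP : ∀ φ, Aut φ → ∀ a b, P a b → P (φ a) (φ b)) (a b : V) (hab : Ad a b) : P a b := by
  have back : ∀ φ : Perm V, Aut φ → ∀ a b, Ad a b → (Ad (φ.symm a) (φ.symm b) →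
      P (φ.symm a) (φ.symm b)) → P a b := by
    intro φ hφ a b h h'
    have := hP φ hφ _ _ (h' ((hφ _ _).mp (by simpa using h)))
    simpa using this
  have s1 : ∀ (n : ℕ) (b : V), b.val = n → Ad 0 b → P 0 b := by
    intro n
    induction n using Nat.strong_induction_on with
    | _ n ih =>
      intro b hb h
      have h1 := allN_true bfs1 b.val b.2
      have h2 : Nat.beq (bit (row 0) b.val) 1 = true := Nat.beq_eq.mpr h
      simp only [h2, Bool.not_true, Bool.false_or, Bool.or_eq_true, Nat.blt_eq, Nat.beq_eq] at h1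
      have key : ∀ {T I : ℕ} (g : autChk T I = true), pm T 0 = 0 → pm I b.val < b.val → P 0 b := by
        intro T I g g0 g1
        have e0 : (mkP g).symm 0 = 0 := (Equiv.symm_apply_eq _).mpr (Fin.ext g0.symm)
        refine back (mkP g) (mkP_aut g) 0 b h ?_
        rw [e0]
        exact ih _ (hb ▸ g1) _ (mkP_symm g b)
      rcases h1 with (h1 | h1) | h1
      · rw [show b = 1 from Fin.ext h1]; exact h0
      · exact key aut_e fix_vals.1 h1
      · exact key aut_t fix_vals.2.1 h1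
  have s2 : ∀ (n : ℕ) (a : V), a.val = n → ∀ b, Ad a b → P a b := by
    intro n
    induction n using Nat.strong_induction_on with
    | _ n ih =>
      intro a ha b h
      have h1 := allN_true bfs2 a.val a.2
      simp only [Bool.or_eq_true, Nat.blt_eq, Nat.beq_eq] at h1
      have key : ∀ {T I : ℕ} (g : autChk T I = true), pm I a.val < a.val → P a b :=
        fun g g1 => back (mkP g) (mkP_aut g) a b h (ih _ (ha ▸ g1) _ (mkP_symm g a) _)
      rcases h1 with ((h1 | h1) | h1) | h1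
      · rw [show a = 0 from Fin.ext h1] at h ⊢; exact s1 _ b rfl h
      · exact key aut_e h1
      · exact key aut_t h1
      · exact key aut_w h1
  exact s2 _ a rfl b hab

lemma Ad.symm {a b : V} (h : Ad a b) : Ad b a :=
  reach (fun a b => Ad b a) (by decide +kernel) (fun _ hφ _ _ h => (hφ _ _).mpr h) a b h

lemma Ad.ne {a b : V} (h : Ad a b) : a ≠ b :=
  reach (fun a b => a ≠ b) (by decide) (fun φ _ _ _ h => φ.injective.ne h) a b h

lemma no_K4 {a b : V} (h : Ad a b) : ∀ c, Ad a c → Ad b c → ∀ d, Ad a d → Ad b d → ¬ Ad c d := by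
  refine reach (fun a b => ∀ c, Ad a c → Ad b c → ∀ d, Ad a d → Ad b d → ¬ Ad c d)
    (by decide +kernel) (fun φ hφ a b h c h1 h2 d h3 h4 h5 => ?_) a b h
  obtain ⟨c, rfl⟩ := φ.surjective c
  obtain ⟨d, rfl⟩ := φ.surjective d
  exact h c ((hφ _ _).mp h1) ((hφ _ _).mp h2) d ((hφ _ _).mp h3) ((hφ _ _).mp h4)
    ((hφ _ _).mp h5)

lemma sum_aut {M : Type*} [AddCommMonoid M] {φ : Perm V} (hφ : Aut φ) (a b : V) (g : V → M) :
    (∑ c, if Ad (φ a) c ∧ Ad (φ b) c then g c else 0) =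
      ∑ c, if Ad a c ∧ Ad b c then g (φ c) else 0 := by
  rw [← Equiv.sum_comp φ]
  simp only [hφ _ _]

lemma cnt14 {a b : V} (h : Ad a b) : (∑ c, if Ad a c ∧ Ad b c then 1 else 0 : ℕ) = 14 :=
  reach (fun a b => (∑ c, if Ad a c ∧ Ad b c then 1 else 0 : ℕ) = 14) (by decide +kernel)
    (fun _ hφ a b h => (sum_aut hφ a b (fun _ => 1)).trans h) a b h

lemma sum_list {a b : V} (h : Ad a b) (c : ℕ → V) (hc : ∀ j < 14, Ad a (c j) ∧ Ad b (c j))
    (hi : ∀ j < 14, ∀ k < 14, c j = c k → j = k) (g : V → ℝ) :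
    (∑ x, if Ad a x ∧ Ad b x then g x else 0) = ∑ j ∈ range 14, g (c j) := by
  have hinj : Set.InjOn c (range 14 : Finset ℕ) := fun j hj k hk =>
    hi j (mem_range.mp (mem_coe.mp hj)) k (mem_range.mp (mem_coe.mp hk))
  have h1 : (range 14).image c = univ.filter (fun x => Ad a x ∧ Ad b x) := by
    refine eq_of_subset_of_card_le (fun x hx => ?_) ?_
    · obtain ⟨j, hj, rfl⟩ := mem_image.mp hx
      exact mem_filter.mpr ⟨mem_univ _, hc j (mem_range.mp hj)⟩
    · rw [card_image_of_injOn hinj, card_range, card_filter, cnt14 h]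
  rw [← sum_filter, ← h1, sum_image hinj]

/-- symmetric eigenfunctions of the edge-triangle operator -/
def Ev (θ : ℝ) (v : V → V → ℝ) : Prop :=
  (∀ a b, v a b = v b a) ∧
    ∀ a b, Ad a b → (∑ c, if Ad a c ∧ Ad b c then v a c + v b c else 0) = θ * v a b

lemma Ev.comp {θ : ℝ} {v : V → V → ℝ} (hv : Ev θ v) {φ : Perm V} (hφ : Aut φ) :
    Ev θ (fun a b => v (φ a) (φ b)) :=
  ⟨fun _ _ => hv.1 _ _, fun a b h => by
    rw [← hv.2 _ _ ((hφ a b).mpr h), sum_aut hφ]⟩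

def St : Subgroup (Perm V) where
  carrier := {φ | Aut φ ∧ ((φ 0 = 0 ∧ φ 1 = 1) ∨ (φ 0 = 1 ∧ φ 1 = 0))}
  one_mem' := ⟨fun _ _ => Iff.rfl, Or.inl ⟨rfl, rfl⟩⟩
  mul_mem' := by
    rintro φ ψ ⟨h1, h2⟩ ⟨h3, h4⟩
    refine ⟨fun a b => (h1 _ _).trans (h3 a b), ?_⟩
    rcases h2 with h2 | h2 <;> rcases h4 with h4 | h4 <;> simp [h2.1, h2.2, h4.1, h4.2]
  inv_mem' := by
    rintro φ ⟨h1, h2⟩
    refine ⟨fun a b => by simpa using (h1 (φ⁻¹ a) (φ⁻¹ b)).symm, ?_⟩
    simp only [Perm.inv_eq_iff_eq]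
    rcases h2 with h2 | h2
    · exact Or.inl ⟨h2.1.symm, h2.2.symm⟩
    · exact Or.inr ⟨h2.2.symm, h2.1.symm⟩

lemma Ev.avg {θ : ℝ} {v : V → V → ℝ} (hv : Ev θ v) : ∃ u : V → V → ℝ, Ev θ u ∧
    (∀ ψ ∈ St, ∀ a b, u (ψ a) (ψ b) = u a b) ∧ (u 0 1 = 0 → v 0 1 = 0) := by
  have : Fintype St := Fintype.ofFinite _
  refine ⟨fun a b => ∑ φ : St, v (φ.1 a) (φ.1 b), ⟨fun a b => ?_, fun a b h => ?_⟩,
    fun ψ hψ a b => ?_, fun h => ?_⟩
  · exact sum_congr rfl fun φ _ => hv.1 _ _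
  · rw [mul_sum, ← sum_congr rfl fun (φ : St) _ => (hv.comp φ.2.1).2 a b h, sum_comm]
    refine sum_congr rfl fun c _ => ?_
    split_ifs
    · rw [sum_add_distrib]
    · simp
  · exact Equiv.sum_comp (Equiv.mulRight (⟨ψ, hψ⟩ : St)) (fun φ => v (φ.1 a) (φ.1 b))
  · have h1 : ∀ φ : St, v (φ.1 0) (φ.1 1) = v 0 1 := fun φ => by
      rcases φ.2.2 with h2 | h2
      · rw [h2.1, h2.2]
      · rw [h2.1, h2.2, hv.1]
    simp only [h1, sum_const, card_univ, nsmul_eq_mul] at h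
    exact (mul_eq_zero.mp h).resolve_left (Nat.cast_ne_zero.mpr Fintype.card_ne_zero)

end Pool.Agent.Lib.MP_af4e44_co.GR
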