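import Pool.Agent.Lib.MP_af4e44_co.GR.Graph
import Pool.Agent.Lib.MP_af4e44_co.Spec

/-! No eigenvalue at or below `-28/3`, hence every 2-colouring has a monochromatic triangle. -/

set_option autoImplicit false

namespace Pool.Agent.Lib.MP_af4e44_co.GR

open Finset Equiv

def toV (a : ℕ) : V := ⟨a % 288, Nat.mod_lt _ (by norm_num)⟩

lemma toV_val {a : ℕ} (h : a < 288) : (toV a).val = a := Nat.mod_eq_of_lt h

lemma itN_inv {u : V → V → ℝ} {T I : ℕ} (g : autChk T I = true)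
    (hu : ∀ a b, u (mkP g a) (mkP g b) = u a b) (k : ℕ) {a b : ℕ} (ha : a < 288) (hb : b < 288) :
    itN T k a < 288 ∧ itN T k b < 288 ∧
      u (toV (itN T k a)) (toV (itN T k b)) = u (toV a) (toV b) := by
  induction k with
  | zero => exact ⟨ha, hb, rfl⟩
  | succ k ih =>
    have e : ∀ x, itN T (k + 1) x = pm T (itN T k x) := fun _ => rfl
    have f : ∀ x < 288, toV (pm T x) = mkP g (toV x) := fun x hx =>
      Fin.ext (by rw [mkP_val, toV_val hx, toV_val (autChk_true g x hx).1])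
    rw [e, e, f _ ih.1, f _ ih.2.1, hu]
    exact ⟨(autChk_true g _ ih.1).1, (autChk_true g _ ih.2.1).1, ih.2.2⟩

lemma app_inv {u : V → V → ℝ} (hu : ∀ ψ ∈ St, ∀ a b, u (ψ a) (ψ b) = u a b) (w : ℕ) {a b : ℕ}
    (ha : a < 288) (hb : b < 288) : u (toV (app w a)) (toV (app w b)) = u (toV a) (toV b) := by
  obtain ⟨-, t0, t1, f0, f1, m0, m1, w0, w1, -⟩ := fix_vals
  have h1 := itN_inv aut_w (hu _ ⟨mkP_aut _, Or.inr ⟨Fin.ext w0, Fin.ext w1⟩⟩) (w % 2) ha hb
  have h2 := itN_inv aut_m (hu _ ⟨mkP_aut _, Or.inl ⟨Fin.ext m0, Fin.ext m1⟩⟩) (w / 2 % 2)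
    h1.1 h1.2.1
  have h3 := itN_inv aut_f (hu _ ⟨mkP_aut _, Or.inl ⟨Fin.ext f0, Fin.ext f1⟩⟩) (w / 4 % 4)
    h2.1 h2.2.1
  have h4 := itN_inv aut_t (hu _ ⟨mkP_aut _, Or.inl ⟨Fin.ext t0, Fin.ext t1⟩⟩) (w / 16)
    h3.1 h3.2.1
  rw [app, app, h4.2.2, h3.2.2, h2.2.2, h1.2.2]

lemma nb_true (i : ℕ) (hi : i < 122) : pm TA i < 288 ∧ pm TB i < 288 ∧
    bit (row (pm TA i)) (pm TB i) = 1 ∧ ∀ j < 14, cc i j < 288 ∧
      bit (row (pm TA i)) (cc i j) = 1 ∧ bit (row (pm TB i)) (cc i j) = 1 ∧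
      arcChk (pm TA i) (cc i j) (n1 i j) (w1 i j) = true ∧
      arcChk (pm TB i) (cc i j) (n2 i j) (w2 i j) = true ∧ ∀ k < 14, cc i j = cc i k → j = k := by
  have h := nb_ok
  rw [nbChk] at h
  have h1 := allN_true h i hi
  simp only [Bool.and_eq_true, Nat.blt_eq, Nat.beq_eq] at h1
  refine ⟨h1.1.1.1, h1.1.1.2, h1.1.2, fun j hj => ?_⟩
  have h2 := allN_true h1.2 j hj
  simp only [Bool.and_eq_true, Nat.blt_eq, Nat.beq_eq] at h2
  refine ⟨h2.1.1.1.1.1, h2.1.1.1.1.2, h2.1.1.1.2, h2.1.1.2, h2.1.2, fun k hk e => ?_⟩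
  have h3 := allN_true h2.2 k hk
  rw [Nat.beq_eq.mpr e, Bool.not_true, Bool.or_false] at h3
  exact Nat.beq_eq.mp h3

lemma arc_true {u : V → V → ℝ} (hs : ∀ a b, u a b = u b a)
    (hu : ∀ ψ ∈ St, ∀ a b, u (ψ a) (ψ b) = u a b) {a c i w : ℕ} (h : arcChk a c i w = true) :
    i < 122 ∧ u (toV a) (toV c) = u (toV (pm TA i)) (toV (pm TB i)) := by
  rw [arcChk, frc_eq, frc_eq] at h
  simp only [Bool.and_eq_true, Bool.or_eq_true, Nat.blt_eq, Nat.beq_eq] at h
  refine ⟨h.1, ?_⟩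
  rw [← app_inv hu w (nb_true i h.1).1 (nb_true i h.1).2.1]
  rcases h.2 with h2 | h2
  · rw [h2.1, h2.2]
  · rw [h2.1, h2.2, hs]

lemma ad_toV {a b : ℕ} (ha : a < 288) (hb : b < 288) (h : bit (row a) b = 1) :
    Ad (toV a) (toV b) := by
  unfold Ad
  rw [toV_val ha, toV_val hb]; exact h

lemma base_zero {θ : ℝ} (hθ : θ ≤ -28 / 3) {v : V → V → ℝ} (hv : Ev θ v) : v 0 1 = 0 := by
  obtain ⟨u, h1, h2, h3⟩ := hv.avg
  have h4 : QE (fun i => u (toV (pm TA i)) (toV (pm TB i))) (3 * θ + 28) := by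
    intro i hi
    obtain ⟨ha, hb, hab, hj⟩ := nb_true i hi
    refine ⟨fun j h => ⟨(arc_true h1.1 h2 (hj j h).2.2.2.1).1,
      (arc_true h1.1 h2 (hj j h).2.2.2.2.1).1⟩, ?_⟩
    have e := h1.2 _ _ (ad_toV ha hb hab)
    rw [sum_list (ad_toV ha hb hab) (fun j => toV (cc i j))
      (fun j h => ⟨ad_toV ha (hj j h).1 (hj j h).2.1, ad_toV hb (hj j h).1 (hj j h).2.2.1⟩)
      (fun j h k hk e => (hj j h).2.2.2.2.2 k hk (by
        rw [← toV_val (hj j h).1, ← toV_val (hj k hk).1, e])),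
      sum_congr rfl fun j h => by
        rw [(arc_true h1.1 h2 (hj j (mem_range.mp h)).2.2.2.1).2,
          (arc_true h1.1 h2 (hj j (mem_range.mp h)).2.2.2.2.1).2]] at e
    rw [e]; ring
  have h5 := quot_zero h4 (by linarith)
  rw [fix_vals.2.2.2.2.2.2.2.2.2.1, fix_vals.2.2.2.2.2.2.2.2.2.2] at h5
  exact h3 h5

lemma ev_zero {θ : ℝ} (hθ : θ ≤ -28 / 3) {a b : V} (h : Ad a b) : ∀ v, Ev θ v → v a b = 0 :=
  reach (fun a b => ∀ v, Ev θ v → v a b = 0) (fun _ hv => base_zero hθ hv)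
    (fun _ hφ _ _ h _ hv => h _ (hv.comp hφ)) a b h

noncomputable def TT (f : V → V → V → ℝ) : ℝ :=
  ∑ a, ∑ b, ∑ c, if Ad a b ∧ Ad a c ∧ Ad b c then f a b c else 0

lemma TT_swap12 (f : V → V → V → ℝ) : TT f = TT (fun a b c => f b a c) := by
  unfold TT
  rw [sum_comm]
  refine sum_congr rfl fun a _ => sum_congr rfl fun b _ => sum_congr rfl fun c _ => ?_
  exact if_congr ⟨fun h => ⟨h.1.symm, h.2.2, h.2.1⟩, fun h => ⟨h.1.symm, h.2.2, h.2.1⟩⟩ rfl rfl

lemma TT_swap23 (f : V → V → V → ℝ) : TT f = TT (fun a b c => f a c b) := by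
  unfold TT
  refine sum_congr rfl fun a _ => ?_
  rw [sum_comm]
  refine sum_congr rfl fun b _ => sum_congr rfl fun c _ => ?_
  exact if_congr ⟨fun h => ⟨h.2.1, h.1, h.2.2.symm⟩, fun h => ⟨h.2.1, h.1, h.2.2.symm⟩⟩ rfl rfl

lemma TT_add (f g : V → V → V → ℝ) : TT (fun a b c => f a b c + g a b c) = TT f + TT g := by
  unfold TT
  simp only [← sum_add_distrib]
  refine sum_congr rfl fun a _ => sum_congr rfl fun b _ => sum_congr rfl fun c _ => ?_
  split_ifs <;> simp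

lemma TT_congr (f g : V → V → V → ℝ)
    (h : ∀ a b c, Ad a b → Ad a c → Ad b c → f a b c = g a b c) : TT f = TT g := by
  unfold TT
  refine sum_congr rfl fun a _ => sum_congr rfl fun b _ => sum_congr rfl fun c _ => ?_
  split_ifs with h'
  · exact h a b c h'.1 h'.2.1 h'.2.2
  · rfl

noncomputable def ker (d e : V × V) : ℝ :=
  if d.1 = e.1 ∧ Ad d.1 d.2 ∧ Ad d.1 e.2 ∧ Ad d.2 e.2 then 1 else 0

lemma ker_symm (d e : V × V) : ker d e = ker e d :=
  if_congr ⟨fun h => ⟨h.1.symm, h.1 ▸ h.2.2.1, h.1 ▸ h.2.1, h.2.2.2.symm⟩,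
    fun h => ⟨h.1.symm, h.1 ▸ h.2.2.1, h.1 ▸ h.2.1, h.2.2.2.symm⟩⟩ rfl rfl

lemma ker_sum (y : V × V → ℝ) (d : V × V) : ∑ e, ker d e * y e =
    ∑ c, if Ad d.1 d.2 ∧ Ad d.1 c ∧ Ad d.2 c then y (d.1, c) else 0 := by
  rw [Fintype.sum_prod_type, sum_eq_single d.1]
  · simp only [ker, true_and, ite_mul, one_mul, zero_mul]
  · intro b _ hb
    simp only [ker, Ne.symm hb, false_and, if_false, zero_mul, sum_const_zero]
  · intro h; exact absurd (mem_univ _) h

lemma quad (x : V → V → ℝ) (hs : ∀ a b, x a b = x b a)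
    (h1 : ∀ a b, x a b * x a b = if Ad a b then 1 else 0)
    (ht : ∀ a b c, Ad a b → Ad a c → Ad b c →
      x a b * x a c + x a b * x b c + x a c * x b c = -1) :
    ∑ d : V × V, x d.1 d.2 * ∑ e : V × V, ker d e * x e.1 e.2 =
      -(14 / 3) * ∑ d : V × V, x d.1 d.2 * x d.1 d.2 := by
  have e1 : TT (fun a b c => x a b * x a c) =
      ∑ d : V × V, x d.1 d.2 * ∑ e : V × V, ker d e * x e.1 e.2 := by
    rw [TT, Fintype.sum_prod_type]
    refine sum_congr rfl fun a _ => sum_congr rfl fun b _ => ?_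
    rw [ker_sum (fun e => x e.1 e.2), mul_sum]
    simp only [mul_ite, mul_zero]
  have e2 : TT (fun a b c => x a b * x b c) = TT (fun a b c => x a b * x a c) := by
    rw [TT_swap12]
    exact TT_congr _ _ fun a b c _ _ _ => by rw [hs b a]
  have e3 : TT (fun a b c => x a c * x b c) = TT (fun a b c => x a b * x b c) := by
    rw [TT_swap23]
    exact TT_congr _ _ fun a b c _ _ _ => by rw [hs c b]
  have e4 : TT (fun a b c => x a b * x a c + x a b * x b c + x a c * x b c) =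
      -14 * ∑ d : V × V, x d.1 d.2 * x d.1 d.2 := by
    rw [TT_congr _ (fun _ _ _ => -1) ht, TT, mul_sum, Fintype.sum_prod_type]
    refine sum_congr rfl fun a _ => sum_congr rfl fun b _ => ?_
    rw [h1]
    by_cases h : Ad a b
    · have h2 := congrArg (fun n : ℕ => -(n : ℝ)) (cnt14 h)
      simp only [Nat.cast_sum, Nat.cast_ite, Nat.cast_one, Nat.cast_zero, Nat.cast_ofNat,
        ← sum_neg_distrib, neg_ite, neg_zero] at h2
      simp only [h, true_and, if_true, mul_one]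
      exact h2
    · simp only [h, false_and, if_false, sum_const_zero, mul_zero]
  rw [TT_add (fun a b c => x a b * x a c + x a b * x b c) (fun a b c => x a c * x b c),
    TT_add (fun a b c => x a b * x a c) (fun a b c => x a b * x b c), e3, e2, e1] at e4
  linarith

theorem arrows (c : V → V → Bool) (hc : ∀ x y, c x y = c y x) :
    ∃ a b d : V, Ad a b ∧ Ad b d ∧ Ad a d ∧ c a b = c b d ∧ c b d = c a d := by
  by_contra h
  push Not at h
  let x : V → V → ℝ := fun a b => if Ad a b then (if c a b then 1 else -1) else 0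
  have hs : ∀ a b, x a b = x b a := fun a b =>
    if_congr ⟨Ad.symm, Ad.symm⟩ (by rw [hc]) rfl
  have h1 : ∀ a b, x a b * x a b = if Ad a b then 1 else 0 := fun a b => by
    simp only [x]
    split_ifs <;> norm_num
  have ht : ∀ a b d, Ad a b → Ad a d → Ad b d →
      x a b * x a d + x a b * x b d + x a d * x b d = -1 := fun a b d hab had hbd => by
    have := h a b d hab hbd had
    simp only [x, hab, had, hbd, if_true]
    cases h1 : c a b <;> cases h2 : c b d <;> cases h3 : c a d <;> simp_all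
  have h01 : Ad 0 1 := by decide +kernel
  obtain ⟨θ, hθ, v, hv0, hv⟩ := exists_eig ker ker_symm Prod.swap Prod.swap_swap
    (fun e => x e.1 e.2) (fun d => hs _ _)
    (fun h => by
      have h2 : x 0 1 = 0 := congrFun h (0, 1)
      have h3 := h1 0 1
      rw [h2, if_pos h01] at h3
      norm_num at h3)
    (14 / 3) (by norm_num) (quad x hs h1 ht).le
  have hθ0 : θ ≠ 0 := by linarith
  have hev : Ev θ (fun a b => v (a, b)) := by
    refine ⟨fun a b => mul_left_cancel₀ hθ0 ?_, fun a b hab => ?_⟩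
    · rw [← hv (a, b), ← hv (b, a), add_comm]; rfl
    · rw [← hv (a, b), ker_sum, ker_sum, ← sum_add_distrib]
      refine sum_congr rfl fun d _ => ?_
      simp only [Prod.fst_swap, Prod.snd_swap, hab, hab.symm, true_and, and_comm (a := Ad b d)]
      split_ifs <;> simp
  refine hv0 (funext fun ⟨a, b⟩ => ?_)
  by_cases hab : Ad a b
  · exact ev_zero (by linarith) hab _ hev
  · have h2 := hv (a, b)
    have hba : ¬ Ad b a := fun h => hab h.symm
    rw [ker_sum, ker_sum] at h2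
    simp only [Prod.fst_swap, Prod.snd_swap, hab, hba, false_and, if_false, sum_const_zero,
      add_zero] at h2
    exact (mul_eq_zero.mp h2.symm).resolve_left hθ0

def GG : SimpleGraph (Fin 288) where
  Adj := Ad
  symm := ⟨fun _ _ h => h.symm⟩
  loopless := ⟨fun _ h => h.ne rfl⟩

theorem GG_free : GG.CliqueFree 4 := by
  intro s hs
  obtain ⟨a, b, c, d, hab, hac, had, hbc, hbd, hcd, rfl⟩ := Finset.card_eq_four.mp hs.2
  have h := hs.1
  exact no_K4 (h (by simp) (by simp) hab) c (h (by simp) (by simp) hac) (h (by simp) (by simp) hbc)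
    d (h (by simp) (by simp) had) (h (by simp) (by simp) hbd) (h (by simp) (by simp) hcd)

end Pool.Agent.Lib.MP_af4e44_co.GR
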