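import Mathlib
import Pool.Agent.Lib.MP_af4e44_co.GR.Tab

/-! Soundness of the packed Horner run: an eigenvector of the quotient matrix with a
nonpositive shifted eigenvalue vanishes at the base class. -/

set_option autoImplicit false

namespace Pool.Agent.Lib.MP_af4e44_co.GR

open Finset

lemma frc_eq {α : Type} (x : ℕ) (k : ℕ → α) : frc x k = k x := rfl

lemma allN_true {f : ℕ → Bool} {n : ℕ} (h : allN f n = true) : ∀ j < n, f j = true := by
  induction n with
  | zero => intro j hj; omega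
  | succ n ih =>
    have h' : (f n && allN f n) = true := h
    rw [Bool.and_eq_true] at h'
    intro j hj
    rcases Nat.lt_succ_iff_lt_or_eq.mp hj with h1 | h1
    · exact ih h'.2 j h1
    · rw [h1]; exact h'.1

lemma sumN_eq (f : ℕ → ℕ) (n : ℕ) : sumN f n = ∑ j ∈ range n, f j := by
  induction n with
  | zero => rfl
  | succ n ih =>
    show f n + sumN f n = _
    rw [ih, sum_range_succ, add_comm]

lemma sum_lt (X : ℕ) (g : ℕ → ℕ) (n : ℕ) (h : ∀ j < n, g j < X) :
    ∑ j ∈ range n, g j * X ^ j < X ^ n := by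
  induction n with
  | zero => simp
  | succ n ih =>
    rw [sum_range_succ, pow_succ]
    have h1 := ih (fun j hj => h j (by omega))
    have h2 : (g n + 1) * X ^ n ≤ X * X ^ n := Nat.mul_le_mul_right _ (h n (by omega))
    nlinarith

lemma digit_sum (X : ℕ) (g : ℕ → ℕ) (n : ℕ) (h : ∀ j < n, g j < X) (p : ℕ) (hp : p < n) :
    (∑ j ∈ range n, g j * X ^ j) / X ^ p % X = g p := by
  induction n with
  | zero => omega
  | succ n ih =>
    have hX : 0 < X := lt_of_le_of_lt (Nat.zero_le _) (h n (by omega))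
    rw [sum_range_succ]
    rcases Nat.lt_succ_iff_lt_or_eq.mp hp with h1 | h1
    · obtain ⟨k, rfl⟩ := Nat.exists_eq_add_of_lt h1
      rw [show g (p + k + 1) * X ^ (p + k + 1) = (g (p + k + 1) * X ^ k * X) * X ^ p by ring,
        Nat.add_mul_div_right _ _ (pow_pos hX p), Nat.add_mul_mod_self_right]
      exact ih (fun j hj => h j (by omega)) h1
    · subst h1
      rw [Nat.add_mul_div_right _ _ (pow_pos hX p),
        Nat.div_eq_of_lt (sum_lt X g p (fun j hj => h j (by omega))), zero_add,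
        Nat.mod_eq_of_lt (h p (by omega))]

lemma XX_pow (j : ℕ) : XX ^ j = 2 ^ (224 * j) := by rw [XX, ← pow_mul]

lemma dg_eq (N p : ℕ) : dg N p = N / XX ^ p % XX := by
  show (N >>> (224 * p)) % XX = _
  rw [Nat.shiftRight_eq_div_pow, XX_pow]

lemma sh_eq (w m : ℕ) : sh w m = w * XX ^ m := by
  show w <<< (224 * m) = _
  rw [Nat.shiftLeft_eq, XX_pow]

lemma XX_gt : 1 < XX := by decide +kernel

attribute [local irreducible] XX

/-- `N` packs a vector of mass at most `M` whose pairing with `y` is `r`. -/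
def Gd (y : ℕ → ℝ) (N M : ℕ) (r : ℝ) : Prop :=
  ∃ W : ℕ → ℕ, N = ∑ m ∈ range 122, W m * XX ^ m ∧ ∑ m ∈ range 122, W m ≤ M ∧
    ∑ m ∈ range 122, (W m : ℝ) * y m = r

variable {y : ℕ → ℝ}

lemma Gd.add {N N' M M' : ℕ} {r r' : ℝ} (h : Gd y N M r) (h' : Gd y N' M' r') :
    Gd y (N + N') (M + M') (r + r') := by
  obtain ⟨W, h1, h2, h3⟩ := h
  obtain ⟨W', h1', h2', h3'⟩ := h'
  refine ⟨fun m => W m + W' m, ?_, ?_, ?_⟩
  · simp only [add_mul, sum_add_distrib, h1, h1']
  · rw [sum_add_distrib]; omega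
  · simp only [Nat.cast_add, add_mul, sum_add_distrib, h3, h3']

lemma Gd.zero : Gd y 0 0 0 := ⟨fun _ => 0, by simp, by simp, by simp⟩

lemma Gd.mono {N M M' : ℕ} {r : ℝ} (h : Gd y N M r) (hM : M ≤ M') : Gd y N M' r := by
  obtain ⟨W, h1, h2, h3⟩ := h
  exact ⟨W, h1, h2.trans hM, h3⟩

lemma Gd.single (w : ℕ) {m : ℕ} (hm : m < 122) : Gd y (sh w m) w (w * y m) := by
  refine ⟨fun k => if k = m then w else 0, ?_, ?_, ?_⟩
  · simp [sh_eq, hm]
  · simp [hm]
  · simp [hm]

lemma Gd.sum (n : ℕ) (N M : ℕ → ℕ) (r : ℕ → ℝ) (h : ∀ j < n, Gd y (N j) (M j) (r j)) :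
    Gd y (∑ j ∈ range n, N j) (∑ j ∈ range n, M j) (∑ j ∈ range n, r j) := by
  induction n with
  | zero => simpa using Gd.zero
  | succ n ih =>
    simp only [sum_range_succ]
    exact (ih fun j hj => h j (by omega)).add (h n (by omega))

lemma dg_of {N M : ℕ} {W : ℕ → ℕ} (h1 : N = ∑ m ∈ range 122, W m * XX ^ m)
    (h2 : ∑ m ∈ range 122, W m ≤ M) (hM : M < XX) (i : ℕ) (hi : i < 122) : dg N i = W i := by
  rw [dg_eq, h1]
  refine digit_sum XX W 122 (fun j hj => ?_) i hi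
  have := single_le_sum (f := W) (fun _ _ => Nat.zero_le _) (mem_range.mpr hj)
  omega

lemma Gd.uniq {N M : ℕ} {r r' : ℝ} (h : Gd y N M r) (h' : Gd y N M r') (hM : M < XX) : r = r' := by
  obtain ⟨W, h1, h2, h3⟩ := h
  obtain ⟨W', h1', h2', h3'⟩ := h'
  rw [← h3, ← h3']
  refine sum_congr rfl fun i hi => ?_
  rw [← dg_of h1 h2 hM i (mem_range.mp hi), ← dg_of h1' h2' hM i (mem_range.mp hi)]

/-- the eigenvector equation of the shifted quotient matrix -/
def QE (y : ℕ → ℝ) (μ : ℝ) : Prop :=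
  ∀ i < 122, (∀ j < 14, n1 i j < 122 ∧ n2 i j < 122) ∧
    μ * y i = 28 * y i + 3 * ∑ j ∈ range 14, (y (n1 i j) + y (n2 i j))

lemma Gd.step {μ : ℝ} (hy : QE y μ) {N M : ℕ} {r : ℝ} (h : Gd y N M r) (hM : M < XX) :
    Gd y (st N) (112 * M) (μ * r) := by
  obtain ⟨W, h1, h2, h3⟩ := h
  have h4 := Gd.sum (y := y) 122 (fun i => sh (28 * W i) i +
      ∑ j ∈ range 14, (sh (3 * W i) (n1 i j) + sh (3 * W i) (n2 i j)))
    (fun i => 28 * W i + ∑ j ∈ range 14, (3 * W i + 3 * W i))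
    (fun i => (28 * W i : ℕ) * y i +
      ∑ j ∈ range 14, ((3 * W i : ℕ) * y (n1 i j) + (3 * W i : ℕ) * y (n2 i j)))
    (fun i hi => (Gd.single _ hi).add (Gd.sum 14 _ _ _ fun j hj =>
      (Gd.single _ ((hy i hi).1 j hj).1).add (Gd.single _ ((hy i hi).1 j hj).2)))
  have e1 : st N = ∑ i ∈ range 122, (sh (28 * W i) i +
      ∑ j ∈ range 14, (sh (3 * W i) (n1 i j) + sh (3 * W i) (n2 i j))) := by
    rw [st, sumN_eq]
    refine sum_congr rfl fun i hi => ?_
    rw [frc_eq, dg_of h1 h2 hM i (mem_range.mp hi), sumN_eq]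
    rfl
  have e2 : μ * r = ∑ i ∈ range 122, (((28 * W i : ℕ) : ℝ) * y i +
      ∑ j ∈ range 14, (((3 * W i : ℕ) : ℝ) * y (n1 i j) + ((3 * W i : ℕ) : ℝ) * y (n2 i j))) := by
    rw [← h3, mul_sum]
    refine sum_congr rfl fun i hi => ?_
    simp only [← mul_add, ← mul_sum]
    push_cast
    linear_combination (W i : ℝ) * (hy i (mem_range.mp hi)).2
  rw [e1, e2]
  refine h4.mono ?_
  have : ∀ i, 28 * W i + ∑ j ∈ range 14, (3 * W i + 3 * W i) = 112 * W i := fun i => by
    rw [sum_const, card_range, smul_eq_mul]; ring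
  simp only [this, ← mul_sum]
  omega

lemma run_nil (P N M : ℕ) : run [] P N M = (Nat.beq P N && Nat.blt M XX) := rfl

lemma run_cons (c : ℕ) (l : List ℕ) (P N M : ℕ) : run (c :: l) P N M =
    (Nat.blt M XX && Nat.blt 0 c && frc (st N + c) fun P' =>
      frc (st P) fun N' => frc (112 * M + c) fun M' => run l P' N' M') := rfl

lemma run_sound {μ : ℝ} (hy : QE y μ) (hμ : μ ≤ 0) (l : List ℕ) : ∀ (P N M : ℕ) (p q ρ : ℝ),
    Gd y P M p → Gd y N M q → p - q = ρ * y 0 → 0 < ρ → run l P N M = true → y 0 = 0 := by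
  induction l with
  | nil =>
    intro P N M p q ρ hP hN h hρ hr
    have hr' := hr
    rw [run_nil, Bool.and_eq_true, Nat.beq_eq, Nat.blt_eq] at hr'
    rw [hr'.1] at hP
    rw [hP.uniq hN hr'.2, sub_self] at h
    exact (mul_eq_zero.mp h.symm).resolve_left hρ.ne'
  | cons c l ih =>
    intro P N M p q ρ hP hN h hρ hr
    have hr' := hr
    rw [run_cons, frc_eq, frc_eq, frc_eq, Bool.and_eq_true, Bool.and_eq_true, Nat.blt_eq,
      Nat.blt_eq] at hr'
    have hc : Gd y c c (c * y 0) := by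
      simpa [sh_eq] using Gd.single (y := y) c (m := 0) (by norm_num)
    have hc' : (0 : ℝ) < c := by exact_mod_cast hr'.1.2
    refine ih _ _ _ _ _ (-μ * ρ + c) ((hN.step hy hr'.1.1).add hc)
      ((hP.step hy hr'.1.1).mono (Nat.le_add_right _ _)) (by linear_combination (-μ) * h) ?_ hr'.2
    have := mul_nonneg (neg_nonneg.mpr hμ) hρ.le
    linarith

theorem quot_zero {μ : ℝ} (hy : QE y μ) (hμ : μ ≤ 0) : y 0 = 0 := by
  have h1 : Gd y 1 1 (y 0) := by
    simpa [sh_eq] using Gd.single (y := y) 1 (m := 0) (by norm_num)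
  exact run_sound hy hμ cs 1 0 1 _ 0 1 h1 (Gd.zero.mono (by norm_num)) (by ring) one_pos run_ok

end Pool.Agent.Lib.MP_af4e44_co.GR
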